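import Pool.Agent.H79.BN.Targets

set_option autoImplicit false

open MeasureTheory Set Filter Topology Pool.Agent.H93.BL Pool.Agent.H79.BN

namespace Pool.Agent.H63.BN

theorem cr_par {a b d : ℂ} (hd : d ≠ 0) (ha : cr a d = 0) (hb : cr b d = 0) : cr a b = 0 := by
  have h1 : cr a b * d.re = 0 := by
    have : cr a b * d.re = cr a d * b.re - cr b d * a.re := by unfold cr; ring
    rw [this, ha, hb]; ring
  have h2 : cr a b * d.im = 0 := by
    have : cr a b * d.im = cr a d * b.im - cr b d * a.im := by unfold cr; ring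
    rw [this, ha, hb]; ring
  by_contra h
  apply hd
  apply Complex.ext
  · simpa [h] using h1
  · simpa [h] using h2

theorem y1 (h0 : T_V0) (h1 : T_V1) (h3 : T_V3) : T_Y1 := by
  intro n _ w hn hw X d j k t t' hd hjk hx hA hx' hB
  obtain ⟨-, -, hpos, -, -⟩ := h1 n w hn hw
  obtain ⟨hxi, hxj, -, -, -⟩ := h3 n w hn hw j j _ hx
  obtain ⟨hxi', hxk', -, -, h5⟩ := h3 n w hn hw j k _ hx'
  obtain ⟨-, -, -, -, h5'⟩ := h3 n w hn hw k j _ hx
  have e1 : cr (ed w j) (X + (t' : ℂ) * d - w j) = (t' - t) * cr (ed w j) d := by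
    have : X + (t' : ℂ) * d - w j = (X + (t : ℂ) * d - w j) + ((t' - t : ℝ) : ℂ) * d := by
      push_cast; ring
    rw [this, cr_add_right, hxj, zero_add, cr_smul_right]
  have e2 : cr (ed w k) (X + (t : ℂ) * d - w k) = (t - t') * cr (ed w k) d := by
    have : X + (t : ℂ) * d - w k = (X + (t' : ℂ) * d - w k) + ((t - t' : ℝ) : ℂ) * d := by
      push_cast; ring
    rw [this, cr_add_right, hxk', zero_add, cr_smul_right]
  have i1 := hxi' j
  have i2 := hxi k
  rw [e1] at i1
  rw [e2] at i2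
  have hj1 : j - 1 + 1 = j := (h0 n hn j).2.2.2.2.2.1
  have hk1 : k - 1 + 1 = k := (h0 n hn k).2.2.2.2.2.1
  rcases lt_or_eq_of_le hA with hA' | hA'
  · rcases lt_or_eq_of_le hB with hB' | hB'
    · have ht : t = t' := by
        have a1 : t' - t ≤ 0 := by
          by_contra h
          push Not at h
          nlinarith [mul_neg_of_pos_of_neg h hA']
        have a2 : t - t' ≤ 0 := by
          by_contra h
          push Not at h
          nlinarith [mul_neg_of_pos_of_neg h hB']
        linarith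
      subst ht
      rcases h5 (fun h => hjk h.symm) hxj with ⟨hx1, hk⟩ | ⟨hx1, hk⟩
      · refine ⟨k, Or.inr ⟨?_, rfl⟩, fun _ => ?_, fun _ => ?_, Or.inl hA'⟩
        · rw [hk, hj1]
        · rw [hk, hj1]; exact hx1
        · rw [hk, hj1]; exact hx1
      · exact ⟨j, Or.inl ⟨rfl, hk⟩, fun _ => hx1, fun _ => hx1, Or.inl hA'⟩
    · rw [hB', mul_zero] at e2
      rcases h5' hjk e2 with ⟨hx1, hj⟩ | ⟨hx1, hj⟩
      · refine ⟨j, Or.inl ⟨rfl, ?_⟩, fun _ => ?_, fun h => absurd h (by rw [hB']; exact lt_irrefl _),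
          Or.inl hA'⟩
        · rw [hj, hk1]
        · rw [hj, hk1]; exact hx1
      · refine ⟨k, Or.inr ⟨hj, rfl⟩, fun _ => hx1,
          fun h => absurd h (by rw [hB']; exact lt_irrefl _), Or.inl hA'⟩
  · rw [hA', mul_zero] at e1
    rcases lt_or_eq_of_le hB with hB' | hB'
    · rcases h5 (fun h => hjk h.symm) e1 with ⟨hx1, hk⟩ | ⟨hx1, hk⟩
      · refine ⟨k, Or.inr ⟨?_, rfl⟩, fun h => absurd h (by rw [hA']; exact lt_irrefl _),
          fun _ => ?_, Or.inr hB'⟩
        · rw [hk, hj1]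
        · rw [hk, hj1]; exact hx1
      · exact ⟨j, Or.inl ⟨rfl, hk⟩, fun h => absurd h (by rw [hA']; exact lt_irrefl _),
          fun _ => hx1, Or.inr hB'⟩
    · exfalso
      have hp := cr_par hd hA' hB'
      rcases h5 (fun h => hjk h.symm) e1 with ⟨hx1, hk⟩ | ⟨hx1, hk⟩
      · have := hpos k
        rw [hk, hj1, ← hk, cr_swap, hp, neg_zero] at this
        exact lt_irrefl _ this
      · have := hpos j
        rw [← hk, hp] at this
        exact lt_irrefl _ this

end Pool.Agent.H63.BN
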